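import Pool.Agent.Lib.THU.Tor3

/-!
Measurable Riemann mapping theorem for smooth periodic coefficients, and the approximate
version for continuous coefficients on a disc.
-/

set_option autoImplicit false

namespace Pool.Agent.Lib.THU.Tor

open UnitAddTorus Complex ComplexConjugate Filter Topology
open scoped ContDiff

/-- a proper `C¹` self-map of the plane with injective derivative is a homeomorphism -/
theorem homeo {f : ℂ → ℂ} {D : ℂ → ℂ →L[ℝ] ℂ} (hd : ∀ z, HasFDerivAt f (D z) z)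
    (hc : Continuous D) (hi : ∀ z, Function.Injective (D z))
    (hp : Tendsto f (cocompact ℂ) (cocompact ℂ)) : ∃ g : ℂ ≃ₜ ℂ, ⇑g = f := by
  have fc : Continuous f := continuous_iff_continuousAt.2 fun z => (hd z).continuousAt
  have loc : ∀ z, ∃ φ : OpenPartialHomeomorph ℂ ℂ, z ∈ φ.source ∧ φ = f := fun z => by
    let L := (LinearEquiv.ofInjectiveEndo (D z : ℂ →ₗ[ℝ] ℂ) (hi z)).toContinuousLinearEquiv
    have h : HasStrictFDerivAt f (L : ℂ →L[ℝ] ℂ) z :=
      hasStrictFDerivAt_of_hasFDerivAt_of_continuousAt (.of_forall hd) hc.continuousAt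
    exact ⟨h.toOpenPartialHomeomorph f, h.mem_toOpenPartialHomeomorph_source, rfl⟩
  have pm := isProperMap_iff_tendsto_cocompact.2 ⟨fc, hp⟩
  have cov : IsCoveringMap f := isCoveringMap_iff_isCoveringMapOn_univ.2
    (pm.isClosedMap.isCoveringMapOn_of_isLocalHomeomorphOn
      (fun x _ => (pm.isCompact_preimage isCompact_singleton).finite
        (IsDiscrete.of_openPartialHomeomorph f subset_rfl fun e _ => loc e))
      fun z _ => (loc z).imp fun _ h => ⟨h.1, h.2.symm⟩)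
  obtain ⟨F, ⟨F0, hF⟩, -⟩ := cov.existsUnique_continuousMap_lifts (.id ℂ) (f 0) 0 rfl
  have e : F ∘ f = id := cov.eq_of_comp_eq (F.continuous.comp fc) continuous_id
    (by rw [← Function.comp_assoc, hF]; rfl) 0 F0
  exact ⟨⟨⟨f, F, congrFun e, congrFun hF⟩, fc, F.continuous⟩, rfl⟩

lemma lin_inj {a m : ℂ} (ha : a ≠ 0) (hm : ‖m‖ < 1) : Function.Injective (lin a (m * a)) :=
  (injective_iff_map_eq_zero _).2 fun v hv => by
    have h : v = -(m * conj v) := mul_left_cancel₀ ha (by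
      rw [lin_apply] at hv; linear_combination hv)
    have := congrArg norm h
    rw [norm_neg, norm_mul, norm_conj] at this
    exact norm_le_zero_iff.1 (by nlinarith [norm_nonneg v])

lemma lin_cont {a b : ℂ → ℂ} (ha : Continuous a) (hb : Continuous b) :
    Continuous fun z => lin (a z) (b z) :=
  (ha.smul continuous_const).add (hb.smul continuous_const)

/-- smooth coefficient on the torus -/
theorem mrmt_torus {μ : C(T, ℂ)} (hμ : Sm μ) {k : ℝ} (hk : k < 1) (hb : ‖μ‖ ≤ k) :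
    ∃ (f : ℂ ≃ₜ ℂ) (c : ℂ) (p g : C(T, ℂ)), ‖c‖ ≤ k ∧ (∀ t, g t ≠ 0) ∧
      (∀ z, f z = z + c * conj z + p (pr z)) ∧
      ∀ z, HasFDerivAt f (lin (g (pr z)) (μ (pr z) * g (pr z))) z := by
  obtain ⟨c, p, g, hc, hg, hd⟩ := core hμ hk hb
  have d : ∀ z, HasFDerivAt (fun z => z + c * conj z + p (pr z))
      (lin (g (pr z)) (μ (pr z) * g (pr z))) z := fun z => by
    have := (hd_lin 1 c z).add (hd z)
    simp only [one_mul] at this
    refine this.congr_fderiv (ContinuousLinearMap.ext fun v => ?_)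
    simp; ring
  have pc := pr_cont
  obtain ⟨f, hf⟩ := homeo d (lin_cont (by fun_prop) (by fun_prop))
    (fun z => lin_inj (hg _) (((μ.norm_coe_le_norm _).trans hb).trans_lt hk)) (by
      rw [← Metric.cobounded_eq_cocompact, ← tendsto_norm_atTop_iff_cobounded]
      refine tendsto_atTop_mono (fun z => ?_) (tendsto_atTop_add_const_right _ (-‖p‖)
        ((tendsto_norm_cobounded_atTop (E := ℂ)).const_mul_atTop (sub_pos.2 hk)))
      have h1 := norm_sub_le (z + c * conj z + p (pr z) - p (pr z)) (c * conj z)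
      have h2 := norm_sub_le (z + c * conj z + p (pr z)) (p (pr z))
      have h3 := p.norm_coe_le_norm (pr z)
      rw [add_sub_cancel_right, add_sub_cancel_right, norm_mul, norm_conj] at h1
      rw [add_sub_cancel_right] at h2
      nlinarith [norm_nonneg z])
  exact ⟨f, c, p, g, hc, hg, congrFun hf, hf ▸ d⟩

/-- smooth doubly periodic coefficient on the plane -/
theorem mrmt (μ : ℂ → ℂ) (k : ℝ) (hk : k < 1) (hμ : ContDiff ℝ ∞ μ) (hb : ∀ z, ‖μ z‖ ≤ k)
    (h1 : ∀ z, μ (z + 1) = μ z) (hI : ∀ z, μ (z + I) = μ z) :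
    ∃ (f : ℂ ≃ₜ ℂ) (c : ℂ) (a : ℂ → ℂ), ‖c‖ ≤ k ∧ Continuous a ∧ (∀ z, a z ≠ 0) ∧
      (∀ z, f (z + 1) = f z + (1 + c)) ∧ (∀ z, f (z + I) = f z + (1 - c) * I) ∧
      ∀ z, HasFDerivAt f (lin (a z) (μ z * a z)) z := by
  obtain ⟨m, hm⟩ := exists_lift hμ.continuous fun z w => eq_of_per h1 hI
  obtain ⟨f, c, p, g, hc, hg, hf, hd⟩ := mrmt_torus (μ := m) (by simpa only [Sm, hm] using hμ) hk
    ((ContinuousMap.norm_le _ ((norm_nonneg _).trans (hb 0))).2 fun t => by
      obtain ⟨z, rfl⟩ := pr_surj t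
      rw [hm]; exact hb z)
  refine ⟨f, c, fun z => g (pr z), hc, g.continuous.comp pr_cont, fun z => hg _, fun z => ?_,
    fun z => ?_, by simpa only [hm] using hd⟩
  · simp [hf, pr_add, pr_one]; ring
  · simp [hf, pr_add, pr_I]; ring

lemma dense_sm (a : C(T, ℂ)) {ε : ℝ} (hε : 0 < ε) : ∃ b, Sm b ∧ ‖b - a‖ < ε := by
  have h : a ∈ (Submodule.span ℂ (Set.range (mFourier (d := Fin 2)))).topologicalClosure := by
    rw [span_mFourier_closure_eq_top]; trivial
  obtain ⟨b, hb, hd⟩ := Metric.mem_closure_iff.1 h ε hε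
  refine ⟨b, ?_, by rwa [dist_comm, dist_eq_norm] at hd⟩
  clear hd
  induction hb using Submodule.span_induction with
  | mem x hx =>
    obtain ⟨n, rfl⟩ := hx
    simp only [Sm, e_pr, ← lin_apply]
    exact (lin _ _).contDiff.cexp
  | zero => exact contDiff_const
  | add x y _ _ hx hy => exact ContDiff.add hx hy
  | smul c x _ hx => exact ContDiff.mul (contDiff_const (c := c)) hx

/-- approximate solution for a continuous coefficient on a disc -/
theorem sm (ν : ℂ → ℂ) (hν : Continuous ν) {κ κ' R ε : ℝ} (hb : ∀ z, ‖ν z‖ ≤ κ) (h1 : κ < κ')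
    (h2 : κ' < 1) (hε : 0 < ε) :
    ∃ (f : ℂ ≃ₜ ℂ) (a μ : ℂ → ℂ), f 0 = 0 ∧ f 1 = 1 ∧ Continuous a ∧ ContDiff ℝ ∞ μ ∧
      (∀ z, a z ≠ 0) ∧ (∀ z, ‖μ z‖ ≤ κ') ∧ (∀ z, ‖z‖ ≤ R → ‖μ z - ν z‖ ≤ ε) ∧
      ∀ z, HasFDerivAt f (lin (a z) (μ z * a z)) z := by
  set ρ := |R| + 1
  have ρ0 : 0 < ρ := by positivity
  have π3 := Real.pi_gt_three
  set s : ℝ → ℝ := fun x => ρ * Real.arcsin (Real.sin (2 * Real.pi * x))
  have sc : Continuous s := by fun_prop
  have sp : ∀ x, s (x + 1) = s x := fun x => by simp [s, mul_add]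
  set L : ℝ := 2 * Real.pi * ρ
  have L0 : 0 < L := by positivity
  have si : ∀ x, |x| ≤ R → s (x / L) = x := fun x hx => by
    have e : 2 * Real.pi * (x / L) = x / ρ := by simp only [L]; field_simp
    have h := abs_le.1 ((hx.trans (le_abs_self R)).trans (by linarith : |R| ≤ ρ))
    simp only [s]
    rw [e, Real.arcsin_sin, mul_div_cancel₀ _ ρ0.ne']
    · rw [le_div_iff₀ ρ0]; nlinarith
    · rw [div_le_iff₀ ρ0]; nlinarith
  obtain ⟨m, hm⟩ := exists_lift (F := fun z => ν (s z.re + s z.im * I)) (by fun_prop)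
    fun z w => eq_of_per (F := fun z => ν (s z.re + s z.im * I)) (fun z => by simp [sp])
      fun z => by simp [sp]
  have nm : ‖m‖ ≤ κ := (ContinuousMap.norm_le _ ((norm_nonneg _).trans (hb 0))).2 fun t => by
    obtain ⟨z, rfl⟩ := pr_surj t
    rw [hm]; exact hb _
  obtain ⟨b, sb, hbm⟩ := dense_sm m (lt_min hε (sub_pos.2 h1))
  have nb : ‖b‖ ≤ κ' := by
    linarith [norm_le_norm_sub_add b m, min_le_right ε (κ' - κ)]
  obtain ⟨F, -, -, g, -, hg, -, hd⟩ := mrmt_torus sb h2 nb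
  have LC : (L : ℂ)⁻¹ ≠ 0 := inv_ne_zero (ofReal_ne_zero.2 L0.ne')
  set w := (F ((L : ℂ)⁻¹ * 1) - F 0)⁻¹
  have w0 : F ((L : ℂ)⁻¹ * 1) - F 0 ≠ 0 := sub_ne_zero.2 (F.injective.ne (by simpa using L0.ne'))
  have pc := pr_cont
  refine ⟨((Homeomorph.mulLeft₀ _ LC).trans F).trans ((Homeomorph.subRight (F 0)).trans
    (Homeomorph.mulLeft₀ w (inv_ne_zero w0))), fun z => w * (L : ℂ)⁻¹ * g (pr ((L : ℂ)⁻¹ * z)),
    fun z => b (pr ((L : ℂ)⁻¹ * z)), by simp, inv_mul_cancel₀ w0, by fun_prop,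
    ContDiff.comp (g := fun z => b (pr z)) sb (contDiff_const.mul contDiff_id),
    fun z => mul_ne_zero (mul_ne_zero (inv_ne_zero w0) LC) (hg _),
    fun z => (b.norm_coe_le_norm _).trans nb, fun z hz => ?_, fun z => ?_⟩
  · have := ((b - m).norm_coe_le_norm (pr ((L : ℂ)⁻¹ * z))).trans
      (hbm.le.trans (min_le_left _ _))
    rwa [ContinuousMap.sub_apply, hm, ← ofReal_inv, re_ofReal_mul, im_ofReal_mul,
      ← div_eq_inv_mul, ← div_eq_inv_mul, si _ ((abs_re_le_norm z).trans hz),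
      si _ ((abs_im_le_norm z).trans hz), re_add_im, ofReal_inv] at this
  · refine ((((hd _).comp z ((hasFDerivAt_id z).const_mul (L : ℂ)⁻¹)).sub_const
      (F 0)).const_mul w).congr_fderiv (ContinuousLinearMap.ext fun v => ?_)
    simp; ring

end Pool.Agent.Lib.THU.Tor
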