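import Mathlib

/-!
Two counting lemmas for finite labelled graphs inside an action of a free group.
-/

set_option autoImplicit false

namespace Pool.Agent.Lib.THU.GL

open Finset FreeGroup

variable {ι Ω κ : Type} [Fintype ι] [MulAction (FreeGroup ι) Ω]

omit [Fintype ι] in
lemma head_of_mul [DecidableEq ι] (i : ι) (g : FreeGroup ι)
    (h : g.toWord.head? ≠ some (i, false)) : (of i * g).toWord.head? = some (i, true) := by
  rw [toWord_mul, toWord_of, List.singleton_append, reduce.cons, reduce_toWord]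
  cases e : g.toWord with
  | nil => rfl
  | cons a L =>
    rw [e] at h
    have : ¬ (i = a.1 ∧ true = !a.2) := by
      rintro ⟨h1, h2⟩
      apply h
      obtain ⟨j, b⟩ := a
      cases b
      · simp only at h1; subst h1; rfl
      · simp at h2
    simp only [this, if_false]
    rfl

open Classical in
/-- a finite graph inside a free action is a forest -/
lemma forest (V : Finset Ω) (E : ι → Finset Ω) (cls : Ω → κ)
    (hE : ∀ i, ∀ x ∈ E i, x ∈ V ∧ of i • x ∈ V ∧ cls (of i • x) = cls x)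
    (horb : ∀ x ∈ V, ∀ y ∈ V, cls x = cls y → ∃ g : FreeGroup ι, g • x = y)
    (free : ∀ x ∈ V, ∀ g : FreeGroup ι, g • x = x → g = 1) :
    ∑ i, (E i).card + (V.image cls).card ≤ V.card := by
  rcases V.eq_empty_or_nonempty with rfl | ⟨x0, hx0⟩
  · have : ∀ i, E i = ∅ := fun i => eq_empty_of_forall_notMem fun x hx => by
      simpa using (hE i x hx).1
    simp [this]
  have h1 : ∀ c : κ, ∃ x, c ∈ V.image cls → x ∈ V ∧ cls x = c := fun c => by
    by_cases h : c ∈ V.image cls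
    · obtain ⟨x, hx, e⟩ := mem_image.1 h
      exact ⟨x, fun _ => ⟨hx, e⟩⟩
    · exact ⟨x0, fun h' => absurd h' h⟩
  choose ρ hρ using h1
  have h2 : ∀ x, ∃ g : FreeGroup ι, x ∈ V → g • ρ (cls x) = x := fun x => by
    by_cases h : x ∈ V
    · obtain ⟨a, b⟩ := hρ _ (mem_image_of_mem cls h)
      obtain ⟨g, hg⟩ := horb _ a _ h b
      exact ⟨g, fun _ => hg⟩
    · exact ⟨1, fun h' => absurd h' h⟩
  choose h hh using h2
  have uq : ∀ x ∈ V, ∀ g : FreeGroup ι, g • ρ (cls x) = x → h x = g := fun x hx g hg => by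
    have := free _ (hρ _ (mem_image_of_mem cls hx)).1 (g⁻¹ * h x)
      (by rw [mul_smul, hh x hx, inv_smul_eq_iff, hg])
    rw [inv_mul_eq_one] at this
    exact this.symm
  let φ : (Σ _ : ι, Ω) ⊕ κ → Ω := Sum.elim
    (fun e => if (h e.2).toWord.head? = some (e.1, false) then e.2 else of e.1 • e.2) ρ
  let ψ : Ω → (Σ _ : ι, Ω) ⊕ κ := fun y => match (h y).toWord.head? with
    | none => .inr (cls y)
    | some (i, false) => .inl ⟨i, y⟩
    | some (i, true) => .inl ⟨i, (of i)⁻¹ • y⟩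
  have key : ∀ z ∈ (univ.sigma E).disjSum (V.image cls), φ z ∈ V ∧ ψ (φ z) = z := by
    rintro (⟨i, x⟩ | c) hz
    · have hx : x ∈ E i := by simpa using hz
      obtain ⟨a, b, c⟩ := hE i x hx
      by_cases e : (h x).toWord.head? = some (i, false)
      · have : φ (.inl ⟨i, x⟩) = x := by simp [φ, e]
        rw [this]
        exact ⟨a, by simp only [ψ, e]⟩
      · have : φ (.inl ⟨i, x⟩) = of i • x := by simp [φ, e]
        rw [this]
        have e2 : h (of i • x) = of i * h x := uq _ b _ (by rw [c, mul_smul, hh x a])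
        refine ⟨b, ?_⟩
        simp only [ψ, e2, head_of_mul i _ e, inv_smul_smul]
    · have hc : c ∈ V.image cls := by simpa using hz
      obtain ⟨a, b⟩ := hρ c hc
      have e2 : h (ρ c) = 1 := uq _ a _ (by rw [b, one_smul])
      refine ⟨a, ?_⟩
      simp only [φ, ψ, Sum.elim_inr, e2, toWord_one, List.head?_nil, b]
  have := card_le_card_of_injOn φ (s := (univ.sigma E).disjSum (V.image cls)) (t := V)
    (fun z hz => (key z hz).1) fun z hz z' hz' e => by
      rw [← (key z hz).2, e, (key z' hz').2]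
  rwa [card_disjSum, card_sigma] at this

/-- the edges of the graph -/
def Ed (E : ι → Finset Ω) (x y : Ω) : Prop := ∃ i, x ∈ E i ∧ y = of i • x

omit [Fintype ι] in
lemma cross {E : ι → Finset Ω} {x y : Ω} (h : Relation.EqvGen (Ed E) x y) (U : Finset Ω)
    (e : ¬ (x ∈ U ↔ y ∈ U)) : ∃ i, ∃ z ∈ E i, ¬ (z ∈ U ↔ of i • z ∈ U) := by
  induction h with
  | rel a b h => obtain ⟨i, h, rfl⟩ := h; exact ⟨i, a, h, e⟩
  | refl a => simp at e
  | symm a b _ ih => exact ih fun h => e h.symm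
  | trans a b c _ _ ih1 ih2 =>
    by_cases h : a ∈ U ↔ b ∈ U
    · exact ih2 fun h' => e (h.trans h')
    · exact ih1 h

omit [Fintype ι] in
open Classical in
lemma grow (V : Finset Ω) (E : ι → Finset Ω) (hE : ∀ i, ∀ x ∈ E i, x ∈ V ∧ of i • x ∈ V)
    (ρ : Ω → Ω) (h1 : ∀ x ∈ V, ρ x ∈ V ∧ Relation.EqvGen (Ed E) x (ρ x))
    (h2 : ∀ x y, Relation.EqvGen (Ed E) x y → ρ x = ρ y) (i0 : ι) (n : ℕ) :
    ∃ (U : Finset Ω) (h : Ω → FreeGroup ι) (par : Ω → (Σ _ : ι, Ω)), U ⊆ V ∧
      (U = V ∨ n ≤ U.card) ∧ (∀ x ∈ V, ρ x = x → x ∈ U) ∧ (∀ x ∈ U, h x • ρ x = x) ∧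
      (∀ x ∈ U, ρ x ≠ x → ∀ y ∈ U, ρ y ≠ y → par x = par y → x = y) ∧
      ∀ x ∈ U, ρ x ≠ x → (par x).2 ∈ E (par x).1 ∧ (par x).2 ∈ U ∧
        of (par x).1 • (par x).2 ∈ U ∧
        h (of (par x).1 • (par x).2) = of (par x).1 * h (par x).2 := by
  induction n with
  | zero =>
    refine ⟨V.filter fun x => ρ x = x, fun _ => 1, fun x => ⟨i0, x⟩, filter_subset _ _,
      .inr (Nat.zero_le _), fun x a b => mem_filter.2 ⟨a, b⟩, fun x hx => ?_,
      fun x hx e => absurd (mem_filter.1 hx).2 e, fun x hx e => absurd (mem_filter.1 hx).2 e⟩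
    rw [one_smul, (mem_filter.1 hx).2]
  | succ n ih =>
    obtain ⟨U, h, par, a1, a2, a3, a4, a5, a6⟩ := ih
    by_cases hU : U = V
    · exact ⟨U, h, par, a1, .inl hU, a3, a4, a5, a6⟩
    obtain ⟨x, hx, hxU⟩ := exists_of_ssubset (Finset.ssubset_iff_subset_ne.2 ⟨a1, hU⟩)
    have hr : ρ x ∈ U := a3 _ (h1 x hx).1 (h2 _ _ (h1 x hx).2).symm
    obtain ⟨i, z, hz, e⟩ := cross (h1 x hx).2 U (by simp [hxU, hr])
    have ρz : ρ z = ρ (of i • z) := h2 _ _ (.rel _ _ ⟨i, hz, rfl⟩)
    have gen : ∀ (y : Ω) (g : FreeGroup ι), y ∈ V → y ∉ U → g • ρ y = y →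
        z ∈ insert y U → of i • z ∈ insert y U →
        Function.update h y g (of i • z) = of i * Function.update h y g z →
        ∃ (U : Finset Ω) (h : Ω → FreeGroup ι) (par : Ω → (Σ _ : ι, Ω)), U ⊆ V ∧
      (U = V ∨ n + 1 ≤ U.card) ∧ (∀ x ∈ V, ρ x = x → x ∈ U) ∧ (∀ x ∈ U, h x • ρ x = x) ∧
      (∀ x ∈ U, ρ x ≠ x → ∀ y ∈ U, ρ y ≠ y → par x = par y → x = y) ∧
      ∀ x ∈ U, ρ x ≠ x → (par x).2 ∈ E (par x).1 ∧ (par x).2 ∈ U ∧
        of (par x).1 • (par x).2 ∈ U ∧
        h (of (par x).1 • (par x).2) = of (par x).1 * h (par x).2 := by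
      intro y g hy hyU hg b1 b2 b3
      have ne : ∀ w ∈ U, w ≠ y := fun w hw e => hyU (e ▸ hw)
      have np : ∀ w ∈ U, ρ w ≠ w → par w ≠ ⟨i, z⟩ := fun w hw hw' e' => by
        obtain ⟨-, c1, c2, -⟩ := a6 w hw hw'
        rw [e'] at c1 c2
        exact e (by simp only at c1 c2; simp [c1, c2])
      refine ⟨insert y U, Function.update h y g, Function.update par y ⟨i, z⟩,
        insert_subset hy a1, .inr ?_, fun w a b => mem_insert_of_mem (a3 w a b), ?_, ?_, ?_⟩
      · rw [card_insert_of_notMem hyU]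
        exact Nat.succ_le_succ (a2.resolve_left hU)
      · intro w hw
        rcases mem_insert.1 hw with rfl | hw
        · rw [Function.update_self, hg]
        · rw [Function.update_of_ne (ne w hw), a4 w hw]
      · intro w hw c w' hw' c' e'
        rcases mem_insert.1 hw with h3 | h3 <;> rcases mem_insert.1 hw' with h4 | h4
        · rw [h3, h4]
        · rw [h3, Function.update_self, Function.update_of_ne (ne w' h4)] at e'
          exact absurd e'.symm (np w' h4 c')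
        · rw [h4, Function.update_self, Function.update_of_ne (ne w h3)] at e'
          exact absurd e' (np w h3 c)
        · rw [Function.update_of_ne (ne w h3), Function.update_of_ne (ne w' h4)] at e'
          exact a5 w h3 c w' h4 c' e'
      · intro w hw c
        rcases mem_insert.1 hw with rfl | hw
        · rw [Function.update_self]
          exact ⟨hz, b1, b2, b3⟩
        · rw [Function.update_of_ne (ne w hw)]
          obtain ⟨c0, c1, c2, c3⟩ := a6 w hw c
          refine ⟨c0, mem_insert_of_mem c1, mem_insert_of_mem c2, ?_⟩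
          rw [Function.update_of_ne (ne _ c1), Function.update_of_ne (ne _ c2), c3]
    by_cases hzU : z ∈ U
    · have hy : of i • z ∉ U := fun h' => e (by simp [hzU, h'])
      have nz : z ≠ of i • z := fun e' => hy (e' ▸ hzU)
      refine gen (of i • z) (of i * h z) (hE i z hz).2 hy ?_ (mem_insert_of_mem hzU)
        (mem_insert_self _ _) ?_
      · rw [← ρz, mul_smul, a4 z hzU]
      · rw [Function.update_self, Function.update_of_ne nz]
    · have hy : of i • z ∈ U := by by_contra h'; exact e (by simp [hzU, h'])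
      have nz : of i • z ≠ z := fun e' => hzU (e' ▸ hy)
      refine gen z ((of i)⁻¹ * h (of i • z)) (hE i z hz).1 hzU ?_ (mem_insert_self _ _)
        (mem_insert_of_mem hy) ?_
      · rw [ρz, mul_smul, a4 _ hy, inv_smul_smul]
      · rw [Function.update_self, Function.update_of_ne nz, mul_inv_cancel_left]

open Classical in
/-- roots, a potential, and the components on which the potential is consistent -/
lemma span [Nonempty ι] (V : Finset Ω) (E : ι → Finset Ω)
    (hE : ∀ i, ∀ x ∈ E i, x ∈ V ∧ of i • x ∈ V) :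
    ∃ (ρ : Ω → Ω) (h : Ω → FreeGroup ι) (R : Finset Ω),
      (∀ x y, Relation.EqvGen (Ed E) x y → ρ x = ρ y) ∧ (∀ x ∈ V, h x • ρ x = x) ∧
      (∀ c ∈ R, c ∈ V ∧ ρ c = c) ∧
      (∀ i, ∀ x ∈ E i, ρ x ∈ R → h (of i • x) = of i * h x) ∧
      V.card ≤ ∑ i, (E i).card + R.card := by
  let S := Relation.EqvGen.setoid (Ed E)
  have h0 : ∀ c : Quotient S, ∃ y, Quotient.mk S y = c ∧
      ((∃ x ∈ V, Quotient.mk S x = c) → y ∈ V) := fun c => by
    by_cases h : ∃ x ∈ V, Quotient.mk S x = c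
    · obtain ⟨x, a, b⟩ := h
      exact ⟨x, b, fun _ => a⟩
    · exact ⟨c.out, c.out_eq, fun h' => absurd h' h⟩
  choose r r1 r2 using h0
  let ρ : Ω → Ω := fun x => r (Quotient.mk S x)
  have h2 : ∀ x y, Relation.EqvGen (Ed E) x y → ρ x = ρ y := fun x y h =>
    congrArg r (Quotient.sound h)
  have h1 : ∀ x ∈ V, ρ x ∈ V ∧ Relation.EqvGen (Ed E) x (ρ x) := fun x hx =>
    ⟨r2 _ ⟨x, hx, rfl⟩, Quotient.exact (r1 (Quotient.mk S x)).symm⟩
  obtain ⟨i0⟩ := ‹Nonempty ι›
  obtain ⟨U, h, par, a1, a2, -, a4, a5, a6⟩ := grow V E hE ρ h1 h2 i0 (V.card + 1)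
  obtain rfl : U = V := a2.resolve_right fun h' => by
    have := card_le_card a1
    omega
  let R := U.filter fun c => ρ c = c ∧ ∀ i, ∀ x ∈ E i, ρ x = c → h (of i • x) = of i * h x
  have h3 : ∀ c, ∃ e : (Σ _ : ι, Ω), c ∈ U → ρ c = c → c ∉ R →
      e.2 ∈ E e.1 ∧ ρ e.2 = c ∧ h (of e.1 • e.2) ≠ of e.1 * h e.2 := fun c => by
    by_cases hc : c ∈ U ∧ ρ c = c ∧ c ∉ R
    · obtain ⟨b1, b2, b3⟩ := hc
      simp only [R, mem_filter, b1, b2, true_and, not_forall] at b3
      obtain ⟨i, x, c1, c2, c3⟩ := b3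
      exact ⟨⟨i, x⟩, fun _ _ _ => ⟨c1, c2, c3⟩⟩
    · exact ⟨⟨i0, c⟩, fun b1 b2 b3 => absurd ⟨b1, b2, b3⟩ hc⟩
  choose bad hbad using h3
  refine ⟨ρ, h, R, h2, a4, fun c hc => ⟨(mem_filter.1 hc).1, (mem_filter.1 hc).2.1⟩,
    fun i x hx hc => (mem_filter.1 hc).2.2 i x hx rfl, ?_⟩
  let φ : Ω → (Σ _ : ι, Ω) ⊕ Ω := fun x =>
    if ρ x = x then (if x ∈ R then .inr x else .inl (bad x)) else .inl (par x)
  rw [← card_sigma, ← card_disjSum]
  refine card_le_card_of_injOn φ (fun x hx => ?_) fun x hx y hy e => ?_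
  · have hx : x ∈ U := hx
    by_cases b1 : ρ x = x
    · by_cases b2 : x ∈ R
      · simp [φ, b1, b2]
      · simpa [φ, b1, b2] using (hbad x hx b1 b2).1
    · simpa [φ, b1] using (a6 x hx b1).1
  · have hx : x ∈ U := hx
    have hy : y ∈ U := hy
    by_cases b1 : ρ x = x <;> by_cases c1 : ρ y = y
    · by_cases b2 : x ∈ R <;> by_cases c2 : y ∈ R <;> simp only [φ, b1, c1, b2, c2, if_true,
        if_false, Sum.inr.injEq, Sum.inl.injEq, reduceCtorEq] at e
      · exact e
      · rw [← (hbad x hx b1 b2).2.1, e, (hbad y hy c1 c2).2.1]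
    · by_cases b2 : x ∈ R <;> simp only [φ, b1, c1, b2, if_true, if_false, Sum.inl.injEq,
        reduceCtorEq] at e
      exact absurd (e ▸ (a6 y hy c1).2.2.2) (hbad x hx b1 b2).2.2
    · by_cases c2 : y ∈ R <;> simp only [φ, b1, c1, c2, if_true, if_false, Sum.inl.injEq,
        reduceCtorEq] at e
      exact absurd (e ▸ (a6 x hx b1).2.2.2) (hbad y hy c1 c2).2.2
    · simp only [φ, b1, c1, if_false, Sum.inl.injEq] at e
      exact a5 x hx b1 y hy c1 e

end Pool.Agent.Lib.THU.GL
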