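import Mathlib

/-!
Fourier series on the square torus: coefficients, Parseval, Wirtinger derivatives.
-/

set_option autoImplicit false

namespace Pool.Agent.Lib.THU.Tor

open MeasureTheory UnitAddTorus Complex ComplexConjugate Filter Topology

attribute [local instance] instMeasureSpaceUnitAddCircle

local instance : Measure.IsAddHaarMeasure (volume : Measure UnitAddCircle) :=
  inferInstanceAs (Measure.IsAddHaarMeasure AddCircle.haarAddCircle)

local instance : IsProbabilityMeasure (volume : Measure UnitAddCircle) :=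
  inferInstanceAs (IsProbabilityMeasure AddCircle.haarAddCircle)

/-- the torus -/
abbrev T : Type := UnitAddTorus (Fin 2)

/-- frequencies -/
abbrev Ix : Type := Fin 2 → ℤ

/-- the projection of the plane to the torus -/
def pr (z : ℂ) : T := fun i => ((![z.re, z.im] i : ℝ) : UnitAddCircle)

lemma pr_add (z w : ℂ) : pr (z + w) = pr z + pr w := by
  funext i; fin_cases i <;> simp [pr]

lemma pr_zero : pr 0 = 0 := by funext i; fin_cases i <;> simp [pr]

lemma pr_one : pr 1 = 0 := by
  funext i; fin_cases i <;> simp [pr]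

lemma pr_I : pr I = 0 := by
  funext i; fin_cases i <;> simp [pr]

lemma pr_oq : IsOpenQuotientMap pr := by
  have h1 : IsOpenQuotientMap (Pi.map fun (_ : Fin 2) (x : ℝ) => (x : UnitAddCircle)) :=
    IsOpenQuotientMap.piMap fun _ => QuotientAddGroup.isOpenQuotientMap_mk
  have h2 := (equivRealProdCLM.toHomeomorph.trans
    (Homeomorph.finTwoArrow (X := ℝ)).symm).isOpenQuotientMap
  exact h1.comp h2

lemma pr_cont : Continuous pr := pr_oq.continuous

lemma pr_surj (t : T) : ∃ z, pr z = t := pr_oq.surjective t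

lemma exists_lift {F : ℂ → ℂ} (hc : Continuous F) (h : ∀ z w, pr z = pr w → F z = F w) :
    ∃ a : C(T, ℂ), ∀ z, a (pr z) = F z := by
  choose s hs using pr_surj
  have e : (F ∘ s) ∘ pr = F := funext fun z => h _ _ (hs _)
  exact ⟨⟨F ∘ s, pr_oq.isQuotientMap.continuous_iff.2 (e.symm ▸ hc)⟩, congrFun e⟩

lemma eq_of_per {F : ℂ → ℂ} (h1 : ∀ z, F (z + 1) = F z) (h2 : ∀ z, F (z + I) = F z) {z w : ℂ}
    (h : pr z = pr w) : F z = F w := by
  have a := congrFun h 0
  have b := congrFun h 1
  simp only [pr, Matrix.cons_val_zero, Matrix.cons_val_one] at a b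
  obtain ⟨m, hm⟩ := AddSubgroup.mem_zmultiples_iff.1 (QuotientAddGroup.eq.1 a)
  obtain ⟨n, hn⟩ := AddSubgroup.mem_zmultiples_iff.1 (QuotientAddGroup.eq.1 b)
  have : w = z + m * 1 + n * I := by
    simp only [zsmul_eq_mul, mul_one] at hm hn
    apply Complex.ext <;> simp <;> linarith
  rw [this, Function.Periodic.int_mul h2 n, Function.Periodic.int_mul h1 m]

/-- symbol of the derivative in `z` -/
noncomputable def ze (n : Ix) : ℂ := Real.pi * I * (n 0 - I * n 1)

/-- symbol of the derivative in `conj z` -/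
noncomputable def et (n : Ix) : ℂ := Real.pi * I * (n 0 + I * n 1)

lemma et_eq (n : Ix) : et n = - conj (ze n) := by simp [et, ze]

lemma norm_et (n : Ix) : ‖et n‖ = ‖ze n‖ := by simp [et_eq]

lemma ze_add (n m : Ix) : ze (n + m) = ze n + ze m := by simp [ze]; ring

lemma ze_sub (n m : Ix) : ze (n - m) = ze n - ze m := by simp [ze]; ring

@[simp] lemma ze_zero : ze 0 = 0 := by simp [ze]

@[simp] lemma et_zero : et 0 = 0 := by simp [et]

lemma norm_le_ze (n : Ix) : ‖n‖ ≤ ‖ze n‖ := by
  have e : ‖ze n‖ = Real.pi * ‖(n 0 - I * n 1 : ℂ)‖ := by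
    simp [ze, abs_of_pos Real.pi_pos]
  have h : ‖n‖ ≤ ‖(n 0 - I * n 1 : ℂ)‖ := by
    refine (pi_norm_le_iff_of_nonneg (norm_nonneg _)).2 fun i => ?_
    fin_cases i
    · simpa [Int.norm_eq_abs] using abs_re_le_norm (n 0 - I * n 1 : ℂ)
    · simpa [Int.norm_eq_abs] using abs_im_le_norm (n 0 - I * n 1 : ℂ)
  rw [e]
  nlinarith [Real.pi_gt_three, norm_nonneg (n 0 - I * n 1 : ℂ)]

lemma one_le_ze {n : Ix} (h : n ≠ 0) : 1 ≤ ‖ze n‖ := by
  obtain ⟨i, hi⟩ := Function.ne_iff.1 h
  refine le_trans (le_trans ?_ (norm_le_pi_norm n i)) (norm_le_ze n)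
  rw [Int.norm_eq_abs]
  exact_mod_cast Int.one_le_abs hi

lemma et_ne {n : Ix} (h : n ≠ 0) : et n ≠ 0 := fun e => by
  have := one_le_ze h
  rw [← norm_et, e, norm_zero] at this
  linarith

lemma ze_inj {n m : Ix} (h : ze n = ze m) : n = m := by
  by_contra e
  have := one_le_ze (sub_ne_zero.2 e)
  rw [ze_sub, h, sub_self, norm_zero] at this
  linarith

lemma sum3 : Summable fun n : Ix => ((1 + ‖ze n‖) ^ 3)⁻¹ := by
  refine (EisensteinSeries.summable_one_div_norm_rpow (k := 3) (by norm_num)).of_norm_bounded_eventually ?_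
  filter_upwards [(Set.finite_singleton (0 : Ix)).compl_mem_cofinite] with n hn
  have h0 : 0 < ‖n‖ := norm_pos_iff.2 hn
  rw [Real.norm_of_nonneg (by positivity), Real.rpow_neg h0.le, Real.rpow_ofNat]
  have := norm_le_ze n
  gcongr
  linarith

lemma e_pr (n : Ix) (z : ℂ) : mFourier n (pr z) = exp (ze n * z + et n * conj z) := by
  simp only [mFourier, pr, ContinuousMap.coe_mk, Fin.prod_univ_two, fourier_coe_apply,
    Matrix.cons_val_zero, Matrix.cons_val_one, ← exp_add]
  congr 1
  conv_rhs => rw [← re_add_im z]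
  simp only [ze, et, map_add, map_mul, conj_ofReal, conj_I]
  push_cast
  ring_nf
  rw [I_pow_three]
  ring

lemma e_add (n : Ix) (x y : T) : mFourier n (x + y) = mFourier n x * mFourier n y := by
  obtain ⟨z, rfl⟩ := pr_surj x
  obtain ⟨w, rfl⟩ := pr_surj y
  rw [← pr_add, e_pr, e_pr, e_pr, ← exp_add, map_add]
  congr 1; ring

lemma norm_e (n : Ix) (x : T) : ‖mFourier n x‖ = 1 := by simp [mFourier]

lemma intg (a : C(T, ℂ)) : Integrable a := a.continuous.integrable_of_hasCompactSupport
  (HasCompactSupport.of_compactSpace _)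

/-- Fourier coefficients as continuous functionals -/
noncomputable def cf (n : Ix) : C(T, ℂ) →L[ℂ] ℂ :=
  LinearMap.mkContinuous
    { toFun a := mFourierCoeff a n
      map_add' a b := by
        simp only [mFourierCoeff, ContinuousMap.add_apply, smul_add]
        exact integral_add (intg (mFourier (-n) * a)) (intg (mFourier (-n) * b))
      map_smul' c a := by
        simp only [mFourierCoeff, ContinuousMap.smul_apply, smul_eq_mul, RingHom.id_apply,
          ← integral_const_mul]
        congr 1; ext t; ring } 1 fun a => by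
    refine (norm_integral_le_of_norm_le_const (C := ‖a‖) (.of_forall fun t => ?_)).trans (by simp)
    rw [norm_smul, norm_e, one_mul]
    exact a.norm_coe_le_norm t

lemma cf_def (n : Ix) (a : C(T, ℂ)) : cf n a = ∫ t, mFourier (-n) t * a t := rfl

lemma norm_cf (n : Ix) (a : C(T, ℂ)) : ‖cf n a‖ ≤ ‖a‖ := by
  simpa using (cf n).le_of_opNorm_le (LinearMap.mkContinuous_norm_le _ zero_le_one _) a

lemma cf_mul_e (n m : Ix) (a : C(T, ℂ)) : cf n (a * mFourier m) = cf (n - m) a := by
  simp only [cf_def, ContinuousMap.mul_apply]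
  congr 1; ext t
  rw [neg_sub, sub_eq_neg_add, mFourier_add]; ring

lemma cf_e (n m : Ix) : cf n (mFourier m) = if n = m then 1 else 0 := by
  have := orthonormal_iff_ite.1 (orthonormal_mFourier (d := Fin 2)) n m
  simp only [ContinuousMap.inner_toLp, ← mFourier_neg] at this
  rw [cf_def, ← this]
  congr 1; ext t; ring

lemma cf_one (n : Ix) : cf n 1 = if n = 0 then 1 else 0 := by
  rw [← mFourier_zero, cf_e]

/-- the sum of a Fourier series -/
noncomputable def ev (c : Ix → ℂ) : C(T, ℂ) := ∑' n, c n • mFourier n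

lemma hasSum_ev {c : Ix → ℂ} (h : Summable fun n => ‖c n‖) :
    HasSum (fun n => c n • mFourier n) (ev c) :=
  (Summable.of_norm (by simpa [norm_smul, mFourier_norm] using h)).hasSum

lemma hasSum_cf_mul (a : C(T, ℂ)) {c : Ix → ℂ} (h : Summable fun n => ‖c n‖) (n : Ix) :
    HasSum (fun m => cf (n - m) a * c m) (cf n (a * ev c)) := by
  have := (cf n).hasSum ((hasSum_ev h).mul_left a)
  simpa only [mul_smul_comm, map_smul, cf_mul_e, smul_eq_mul, mul_comm (c _)] using this

lemma cf_ev {c : Ix → ℂ} (h : Summable fun n => ‖c n‖) (n : Ix) : cf n (ev c) = c n := by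
  have := hasSum_cf_mul 1 h n
  rw [one_mul] at this
  refine this.unique ?_
  convert hasSum_single (f := fun m => cf (n - m) 1 * c m) n fun m hm => ?_ using 1
  · simp [cf_one]
  · simp [cf_one, sub_eq_zero, hm.symm]

lemma ev_cf {a : C(T, ℂ)} (h : Summable fun n => ‖cf n a‖) : ev (fun n => cf n a) = a :=
  (hasSum_mFourier_series_of_summable (f := a) h.of_norm).tsum_eq

lemma norm_ev {c : Ix → ℂ} (h : Summable fun n => ‖c n‖) : ‖ev c‖ ≤ ∑' n, ‖c n‖ :=
  tsum_of_norm_bounded h.hasSum fun n => by simp [norm_smul, mFourier_norm]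

lemma parseval (a : C(T, ℂ)) : HasSum (fun n => ‖cf n a‖ ^ 2) (∫ t, ‖a t‖ ^ 2) := by
  have := hasSum_sq_mFourierCoeff (a.toLp 2 volume ℂ)
  simp only [mFourierCoeff_toLp] at this
  rwa [integral_congr_ae (g := fun t => ‖a t‖ ^ 2)] at this
  filter_upwards [ContinuousMap.coeFn_toLp (p := 2) (𝕜 := ℂ) volume a] with t ht
  rw [ht]

lemma sq_summable (a : C(T, ℂ)) : Summable fun n => ‖cf n a‖ ^ 2 := (parseval a).summable

lemma sq_mul_le (a b : C(T, ℂ)) {k : ℝ} (h : ‖a‖ ≤ k) :
    ∑' n, ‖cf n (a * b)‖ ^ 2 ≤ k ^ 2 * ∑' n, ‖cf n b‖ ^ 2 := by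
  rw [(parseval _).tsum_eq, (parseval _).tsum_eq, ← integral_const_mul]
  have i : ∀ c : C(T, ℂ), Integrable fun t => ‖c t‖ ^ 2 := fun c =>
    (by fun_prop : Continuous fun t => ‖c t‖ ^ 2).integrable_of_hasCompactSupport
      (HasCompactSupport.of_compactSpace _)
  refine integral_mono (i _) ((i b).const_mul _) fun t => ?_
  have := (a.norm_coe_le_norm t).trans h
  simp only [ContinuousMap.mul_apply, norm_mul, mul_pow]
  gcongr

/-- the real linear map `v ↦ A v + B conj v` -/
noncomputable def lin (A B : ℂ) : ℂ →L[ℝ] ℂ :=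
  A • ContinuousLinearMap.id ℝ ℂ + B • (conjCLE : ℂ →L[ℝ] ℂ)

@[simp] lemma lin_apply (A B v : ℂ) : lin A B v = A * v + B * conj v := by simp [lin]

lemma norm_lin (A B : ℂ) : ‖lin A B‖ ≤ ‖A‖ + ‖B‖ :=
  ContinuousLinearMap.opNorm_le_bound _ (by positivity) fun v => by
    rw [lin_apply, add_mul]
    exact (norm_add_le _ _).trans (by simp)

lemma sep2 {A B A' B' : ℂ} (h : ∀ v, A * v + B * conj v = A' * v + B' * conj v) :
    A = A' ∧ B = B' := by
  have h1 := h 1
  have h2 := h I
  simp only [mul_one, map_one, conj_I] at h1 h2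
  constructor
  · linear_combination h1 / 2 - I * h2 / 2 + (A - B - A' + B') / 2 * I_sq
  · linear_combination h1 / 2 + I * h2 / 2 - (A - B - A' + B') / 2 * I_sq

/-- `a1` and `a2` are the two Wirtinger derivatives of `a` -/
def HD (a a1 a2 : C(T, ℂ)) : Prop :=
  ∀ z, HasFDerivAt (fun w => a (pr w)) (lin (a1 (pr z)) (a2 (pr z))) z

lemma HD.cf {a a1 a2 : C(T, ℂ)} (h : HD a a1 a2) (n : Ix) :
    cf n a1 = ze n * cf n a ∧ cf n a2 = et n * cf n a := by
  refine sep2 fun v => ?_
  have hv : ∀ t : ℝ, HasDerivAt (fun s : ℝ => (s : ℂ) * v) v t := fun t => by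
    simpa using (ofRealCLM.hasDerivAt (x := t)).mul_const v
  have d1 := (hasDerivAt_integral_of_dominated_loc_of_deriv_le (μ := (volume : Measure T))
    (F := fun (s : ℝ) x => mFourier (-n) x * a (x + pr (s * v)))
    (F' := fun (s : ℝ) x => mFourier (-n) x *
      (a1 (x + pr (s * v)) * v + a2 (x + pr (s * v)) * conj v))
    (bound := fun _ => (‖a1‖ + ‖a2‖) * ‖v‖) (x₀ := 0) univ_mem
    (.of_forall fun s => Continuous.aestronglyMeasurable (by fun_prop))
    (by simp only [ofReal_zero, zero_mul, pr_zero, add_zero]; exact intg (mFourier (-n) * a))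
    (Continuous.aestronglyMeasurable (by fun_prop))
    (.of_forall fun x s _ => by
      rw [norm_mul, norm_e, one_mul, add_mul]
      refine (norm_add_le _ _).trans ?_
      rw [norm_mul, norm_mul, norm_conj]
      gcongr <;> exact ContinuousMap.norm_coe_le_norm _ _)
    (integrable_const _)
    (.of_forall fun x s _ => by
      obtain ⟨z, rfl⟩ := pr_surj x
      have := ((h (z + s * v)).comp_hasDerivAt s ((hv s).const_add z)).const_mul
        (mFourier (-n) (pr z))
      simpa only [lin_apply, pr_add, Function.comp_def] using this)).2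
  have e : (fun s : ℝ => ∫ x, mFourier (-n) x * a (x + pr (s * v))) =
      fun s : ℝ => exp (s * (ze n * v + et n * conj v)) * Tor.cf n a := by
    funext s
    rw [cf_def, ← integral_add_right_eq_self (fun t => mFourier (-n) t * a t) (pr (s * v)),
      ← integral_const_mul]
    congr 1; ext x
    have : (s * (ze n * v + et n * conj v) + (ze (-n) * (s * v) + et (-n) * conj (s * v)) : ℂ)
        = 0 := by simp [ze, et]; ring
    have h2 := congrArg exp this
    rw [exp_add, exp_zero] at h2
    rw [e_add, e_pr]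
    linear_combination (-mFourier (-n) x * a (x + pr (s * v))) * h2
  rw [e] at d1
  have d2 : HasDerivAt (fun s : ℝ => exp (s * (ze n * v + et n * conj v)) * Tor.cf n a)
      ((ze n * v + et n * conj v) * Tor.cf n a) 0 := by
    simpa using (((ofRealCLM.hasDerivAt (x := 0)).mul_const
      (ze n * v + et n * conj v)).cexp).mul_const (Tor.cf n a)
  have := d1.unique d2
  simp only [ofReal_zero, zero_mul, pr_zero, add_zero, mul_add, ← mul_assoc] at this
  rw [integral_add (f := fun t => mFourier (-n) t * a1 t * v)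
    (g := fun t => mFourier (-n) t * a2 t * conj v) ((intg (mFourier (-n) * a1)).mul_const v)
    ((intg (mFourier (-n) * a2)).mul_const _), integral_mul_const, integral_mul_const] at this
  rw [cf_def, cf_def]
  linear_combination this

end Pool.Agent.Lib.THU.Tor
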