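import Pool.Agent.Lib.THU.Tor1

/-!
Solving `φ = h + μ U φ` in weighted spaces of Fourier coefficients.
-/

set_option autoImplicit false

namespace Pool.Agent.Lib.THU.Tor

open UnitAddTorus Complex ComplexConjugate Filter Topology

/-- coefficients summable with the weight `(1 + |ζ|) ^ s` -/
def X (s : ℕ) (c : Ix → ℂ) : Prop := Summable fun n => (1 + ‖ze n‖) ^ s * ‖c n‖

lemma one_le_w (s : ℕ) (n : Ix) : 1 ≤ (1 + ‖ze n‖) ^ s := one_le_pow₀ (by simp)

lemma X.sum {s : ℕ} {c : Ix → ℂ} (h : X s c) : Summable fun n => ‖c n‖ :=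
  h.of_nonneg_of_le (fun _ => norm_nonneg _) fun n =>
    le_mul_of_one_le_left (norm_nonneg _) (one_le_w s n)

lemma X.mono {s : ℕ} {c c' : Ix → ℂ} (h : X s c) (e : ∀ n, ‖c' n‖ ≤ ‖c n‖) : X s c' :=
  Summable.of_nonneg_of_le (fun _ => by positivity) (fun n => by gcongr; exact e n) h

lemma X.ze {c : Ix → ℂ} (h : X 1 c) : Summable fun n => ‖ze n * c n‖ :=
  h.of_nonneg_of_le (fun _ => norm_nonneg _) fun n => by
    rw [norm_mul, pow_one]; gcongr; simp

lemma w_sub (e : ℝ) (he : 0 ≤ e) (n m : Ix) :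
    (1 + e * ‖ze n‖) ^ 3 ≤ (1 + e * ‖ze (n - m)‖) ^ 3 * (1 + e * ‖ze m‖) ^ 3 := by
  rw [← mul_pow]
  have : ‖ze n‖ ≤ ‖ze (n - m)‖ + ‖ze m‖ := by rw [ze_sub]; exact norm_le_norm_sub_add _ _
  have h2 := mul_le_mul_of_nonneg_left this he
  have h3 : 0 ≤ e * ‖ze (n - m)‖ * (e * ‖ze m‖) := by positivity
  gcongr; nlinarith

lemma w_diff (e : ℝ) (he : 0 ≤ e) (he1 : e ≤ 1) (n m : Ix) :
    |(1 + e * ‖ze n‖) ^ 3 - (1 + e * ‖ze m‖) ^ 3| ≤
      e * (1 + ‖ze (n - m)‖) ^ 3 * (1 + e * ‖ze m‖) ^ 3 := by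
  have h1 := w_sub e he n m
  have h2 := w_sub e he m n
  rw [show ‖ze (m - n)‖ = ‖ze (n - m)‖ by rw [ze_sub, ze_sub, norm_sub_rev]] at h2
  have hx := norm_nonneg (ze (n - m))
  generalize ‖ze (n - m)‖ = x at *
  have a0 : 0 < (1 + e * ‖ze n‖) ^ 3 := by positivity
  have b0 : 0 < (1 + e * ‖ze m‖) ^ 3 := by positivity
  generalize (1 + e * ‖ze n‖) ^ 3 = a at *
  generalize (1 + e * ‖ze m‖) ^ 3 = b at *
  have w1 : 1 ≤ (1 + e * x) ^ 3 := one_le_pow₀ (by nlinarith [mul_nonneg he hx])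
  have w2 : (1 + e * x) ^ 3 - 1 ≤ e * (1 + x) ^ 3 := by
    have h3 : e * e ≤ 1 := by nlinarith
    have h4 : 0 ≤ e * (x ^ 2 * (1 - e)) := by have := sub_nonneg.2 he1; positivity
    have h5 : 0 ≤ e * (x ^ 3 * (1 - e * e)) := by have := sub_nonneg.2 h3; positivity
    nlinarith
  have w3 := mul_le_mul_of_nonneg_right w2 b0.le
  generalize (1 + e * x) ^ 3 = W at *
  refine abs_le.2 ⟨?_, by linarith⟩
  by_cases h : b ≤ a
  · nlinarith
  · nlinarith

lemma X.conv {a : C(T, ℂ)} (ha : X 3 fun n => cf n a) {c : Ix → ℂ} (hc : X 3 c) :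
    X 3 fun n => cf n (a * ev c) := by
  have h := (summable_mul_of_summable_norm' (f := fun n => (1 + ‖Tor.ze n‖) ^ 3 * ‖cf n a‖)
    (g := fun n => (1 + ‖Tor.ze n‖) ^ 3 * ‖c n‖) ha.norm ha hc.norm hc)
  let E : Ix × Ix ≃ Ix × Ix := ⟨fun p => (p.1 - p.2, p.2), fun p => (p.1 + p.2, p.2),
    fun p => by simp, fun p => by simp⟩
  have h2 := E.summable_iff.2 h
  refine Summable.of_nonneg_of_le (fun _ => by positivity) (fun n => ?_) h2.prod
  have h3 := (hasSum_cf_mul a hc.sum n).mul_left (((1 + ‖Tor.ze n‖) ^ 3 : ℝ) : ℂ)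
  have h4 := h3.norm_le_of_bounded (h2.prod_factor n).hasSum fun m => by
    have := w_sub 1 zero_le_one n m
    simp only [one_mul] at this
    simp only [norm_mul, Function.comp, E, Equiv.coe_fn_mk, norm_real,
      Real.norm_of_nonneg (zero_le_one.trans (one_le_w 3 n))]
    calc _ ≤ (1 + ‖Tor.ze (n - m)‖) ^ 3 * (1 + ‖Tor.ze m‖) ^ 3 * (‖cf (n - m) a‖ * ‖c m‖) := by
          gcongr
      _ = _ := by ring
  rwa [norm_mul, norm_real, Real.norm_of_nonneg (zero_le_one.trans (one_le_w 3 n))] at h4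

/-- symbol of the Beurling transform -/
noncomputable def uu (n : Ix) : ℂ := ze n / et n

lemma norm_uu {n : Ix} (h : n ≠ 0) : ‖uu n‖ = 1 := by
  rw [uu, norm_div, norm_et, div_self (by linarith [one_le_ze h])]

lemma norm_uu_mul (c : Ix → ℂ) (n : Ix) : ‖uu n * c n‖ ≤ ‖c n‖ := by
  by_cases h : n = 0
  · simp [h, uu]
  · rw [norm_mul, norm_uu h, one_mul]

lemma tsum_sq {c : Ix → ℂ} (h : Summable fun n => ‖c n‖) :
    (Summable fun n => ‖c n‖ ^ 2) ∧ ∑' n, ‖cf n (ev c)‖ ^ 2 = ∑' n, ‖c n‖ ^ 2 := by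
  have := sq_summable (ev c)
  simp only [cf_ev h] at this ⊢
  exact ⟨this, trivial⟩

lemma X.w {c : Ix → ℂ} (hc : X 3 c) {e : ℝ} (he : 0 ≤ e) (he1 : e ≤ 1) :
    Summable fun n => ‖(((1 + e * ‖Tor.ze n‖) ^ 3 : ℝ) : ℂ) * c n‖ :=
  hc.of_nonneg_of_le (fun _ => norm_nonneg _) fun n => by
    rw [norm_mul, norm_real, Real.norm_of_nonneg (by positivity)]
    gcongr
    exact mul_le_of_le_one_left (norm_nonneg _) he1

lemma contr {a : C(T, ℂ)} (ha : X 3 fun n => cf n a) {k : ℝ} (hk : k < 1) (hak : ‖a‖ ≤ k) :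
    ∃ e ρ : ℝ, 0 < e ∧ e ≤ 1 ∧ 0 < ρ ∧ ρ < 1 ∧ ∀ c, X 3 c →
      ∑' n, ‖(((1 + e * ‖ze n‖) ^ 3 : ℝ) : ℂ) * cf n (a * ev c)‖ ^ 2 ≤
        ρ ^ 2 * ∑' n, ‖(((1 + e * ‖ze n‖) ^ 3 : ℝ) : ℂ) * c n‖ ^ 2 := by
  have k0 : 0 ≤ k := (norm_nonneg _).trans hak
  set S := ∑' n, (1 + ‖ze n‖) ^ 3 * ‖cf n a‖
  have S0 : 0 ≤ S := tsum_nonneg fun _ => by positivity
  set e := (1 - k) / 4 / (S + 1) with he
  have k1 : 0 < 1 - k := by linarith
  have e0 : 0 < e := by positivity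
  have eS : e * (S + 1) = (1 - k) / 4 := by rw [he]; field_simp
  have e1 : e ≤ 1 := by nlinarith
  refine ⟨e, (3 + k) / 4, e0, e1, by positivity, by linarith, fun c hc => ?_⟩
  set w : Ix → ℂ := fun n => (((1 + e * ‖ze n‖) ^ 3 : ℝ) : ℂ)
  have hw := hc.w e0.le e1
  set α : Ix → ℂ := fun n => ((e * ((1 + ‖ze n‖) ^ 3 * ‖cf n a‖) : ℝ) : ℂ)
  have nα : ∀ n, ‖α n‖ = e * ((1 + ‖ze n‖) ^ 3 * ‖cf n a‖) := fun n => by
    rw [norm_real, Real.norm_of_nonneg (by positivity)]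
  have hα : Summable fun n => ‖α n‖ := by simp only [nα]; exact ha.mul_left e
  have hA : ‖ev α‖ ≤ (1 - k) / 4 := (norm_ev hα).trans (by
    simp only [nα]; rw [tsum_mul_left]; nlinarith)
  set β : Ix → ℂ := fun n => ((‖w n * c n‖ : ℝ) : ℂ)
  have hβ : Summable fun n => ‖β n‖ := by simpa only [β, norm_real, norm_norm] using hw
  have key : ∀ n, ‖w n * cf n (a * ev c)‖ ≤
      ‖cf n (a * ev fun m => w m * c m)‖ + ‖cf n (ev α * ev β)‖ := fun n => by
    have h1 := ((hasSum_cf_mul a hc.sum n).mul_left (w n)).sub (hasSum_cf_mul a hw n)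
    have h2 := hasSum_re (hasSum_cf_mul (ev α) hβ n)
    have h3 := h1.norm_le_of_bounded h2 fun m => by
      rw [cf_ev hα, show w n * (cf (n - m) a * c m) - cf (n - m) a * (w m * c m) =
        (w n - w m) * (cf (n - m) a * c m) by ring]
      simp only [w, α, β, ← ofReal_mul, ofReal_re, ← ofReal_sub, norm_mul, norm_real,
        Real.norm_eq_abs]
      rw [abs_of_nonneg (by positivity : 0 ≤ (1 + e * ‖ze m‖) ^ 3)]
      calc _ ≤ e * (1 + ‖ze (n - m)‖) ^ 3 * (1 + e * ‖ze m‖) ^ 3 * (‖cf (n - m) a‖ * ‖c m‖) := by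
            gcongr; exact w_diff e e0.le e1 n m
        _ = _ := by ring
    have h4 := re_le_norm (cf n (ev α * ev β))
    linarith [norm_le_norm_add_norm_sub' (w n * cf n (a * ev c))
      (cf n (a * ev fun m => w m * c m))]
  have p1 := sq_mul_le a (ev fun m => w m * c m) hak
  have p2 := sq_mul_le (ev α) (ev β) hA
  rw [(tsum_sq hw).2] at p1
  rw [(tsum_sq hβ).2] at p2
  simp only [β, norm_real, norm_norm] at p2
  set N := ∑' n, ‖w n * c n‖ ^ 2
  have N0 : 0 ≤ N := tsum_nonneg fun _ => by positivity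
  set t := (1 + k) / 2
  set d := (1 - k) / 4
  have t0 : 0 < t := by positivity
  have d0 : 0 < d := by positivity
  have := ((tsum_sq ((ha.conv hc).w e0.le e1)).1.tsum_le_tsum (fun n => (by
      have h := key n
      set x := ‖cf n (a * ev fun m => w m * c m)‖
      set y := ‖cf n (ev α * ev β)‖
      calc _ ≤ (x + y) ^ 2 := by gcongr
        _ = (t + d) / t * x ^ 2 + (t + d) / d * y ^ 2 - (d * x - t * y) ^ 2 / (t * d) := by
            field_simp; ring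
        _ ≤ _ := sub_le_self _ (by positivity) : ‖w n * cf n (a * ev c)‖ ^ 2 ≤
        (t + d) / t * ‖cf n (a * ev fun m => w m * c m)‖ ^ 2 +
          (t + d) / d * ‖cf n (ev α * ev β)‖ ^ 2))
    (((sq_summable _).mul_left _).add ((sq_summable _).mul_left _)))
  rw [((sq_summable _).mul_left _).tsum_add ((sq_summable _).mul_left _), tsum_mul_left,
    tsum_mul_left] at this
  have kt : k ^ 2 ≤ t ^ 2 := by gcongr; simp only [t]; linarith
  calc _ ≤ _ := this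
    _ ≤ (t + d) / t * (t ^ 2 * N) + (t + d) / d * (d ^ 2 * N) := by
        gcongr; exact p1.trans (by gcongr)
    _ = (t + d) ^ 2 * N := by field_simp
    _ = _ := by simp only [t, d]; ring

theorem solve {a h : C(T, ℂ)} (ha : X 3 fun n => cf n a) (hh : X 3 fun n => cf n h) {k : ℝ}
    (hk : k < 1) (hak : ‖a‖ ≤ k) : ∃ φ, X 1 φ ∧ ev φ = h + a * ev fun n => uu n * φ n := by
  obtain ⟨e, ρ, e0, e1, ρ0, ρ1, hc⟩ := contr ha hk hak
  set w : Ix → ℂ := fun n => (((1 + e * ‖ze n‖) ^ 3 : ℝ) : ℂ)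
  let F : (Ix → ℂ) → Ix → ℂ := fun c n => cf n (a * ev fun m => uu m * c m)
  let ψ : ℕ → Ix → ℂ := fun j => F^[j] fun n => cf n h
  have hs : ∀ j, ψ (j + 1) = F (ψ j) := fun j => Function.iterate_succ_apply' _ _ _
  have hX : ∀ j, X 3 (ψ j) := fun j => by
    induction j with
    | zero => exact hh
    | succ j ih => rw [hs]; exact ha.conv (ih.mono (norm_uu_mul _))
  set N := ∑' n, ‖w n * cf n h‖ ^ 2
  have hN : ∀ j, ∑' n, ‖w n * ψ j n‖ ^ 2 ≤ (ρ ^ j) ^ 2 * N := fun j => by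
    induction j with
    | zero => simp [ψ, N]
    | succ j ih =>
      rw [hs]
      refine (hc _ ((hX j).mono (norm_uu_mul _))).trans ?_
      rw [pow_succ' ρ j, mul_pow, mul_assoc]
      gcongr
      refine le_trans (Summable.tsum_le_tsum (fun n => ?_)
        (tsum_sq (((hX j).mono (norm_uu_mul _)).w e0.le e1)).1 (tsum_sq ((hX j).w e0.le e1)).1) ih
      rw [norm_mul, norm_mul (w n)]
      gcongr; exact norm_uu_mul _ _
  have pt : ∀ j n, (1 + ‖ze n‖) ^ 1 * ‖ψ j n‖ ≤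
      (ρ ^ j)⁻¹ * ‖w n * ψ j n‖ ^ 2 + ρ ^ j * (e ^ 6)⁻¹ * ((1 + ‖ze n‖) ^ 3)⁻¹ := fun j n => by
    rw [norm_mul, norm_real, Real.norm_of_nonneg (by positivity)]
    have r0 : 0 < ρ ^ j := by positivity
    have x0 := norm_nonneg (ψ j n)
    have y1 : 1 ≤ 1 + ‖ze n‖ := by simp
    have hW : (e * (1 + ‖ze n‖)) ^ 3 ≤ (1 + e * ‖ze n‖) ^ 3 := by gcongr; linarith
    generalize ρ ^ j = r at *
    generalize ‖ψ j n‖ = x at *
    generalize 1 + ‖ze n‖ = y at *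
    calc y ^ 1 * x ≤ r⁻¹ * ((e * y) ^ 3 * x) ^ 2 + r * (e ^ 6)⁻¹ * (y ^ 4)⁻¹ := by
          have : r⁻¹ * ((e * y) ^ 3 * x) ^ 2 + r * (e ^ 6)⁻¹ * (y ^ 4)⁻¹ - 2 * (y ^ 1 * x) =
            (e ^ 6 * y ^ 5 * x - r) ^ 2 / (r * e ^ 6 * y ^ 4) := by field_simp; ring
          have h2 : 0 ≤ (e ^ 6 * y ^ 5 * x - r) ^ 2 / (r * e ^ 6 * y ^ 4) := by positivity
          have h3 : 0 ≤ y ^ 1 * x := by positivity
          linarith
      _ ≤ _ := by gcongr; norm_num
  have x1 : ∀ j, X 1 (ψ j) := fun j => (hX j).of_nonneg_of_le (fun _ => by positivity) fun n => by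
    gcongr <;> simp
  have big : Summable fun p : ℕ × Ix => (1 + ‖ze p.2‖) ^ 1 * ‖ψ p.1 p.2‖ := by
    refine (summable_prod_of_nonneg fun _ => by positivity).2 ⟨x1, ?_⟩
    refine Summable.of_nonneg_of_le (fun _ => tsum_nonneg fun _ => by positivity) (fun j => ?_)
      ((summable_geometric_of_lt_one ρ0.le ρ1).mul_right
        (N + (e ^ 6)⁻¹ * ∑' n : Ix, ((1 + ‖ze n‖) ^ 3)⁻¹))
    have s1 := (tsum_sq ((hX j).w e0.le e1)).1.mul_left (ρ ^ j)⁻¹
    have s2 := sum3.mul_left (ρ ^ j * (e ^ 6)⁻¹)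
    refine ((x1 j).tsum_le_tsum (pt j) (s1.add s2)).trans ?_
    rw [s1.tsum_add s2, tsum_mul_left, tsum_mul_left, mul_add, mul_assoc]
    refine add_le_add ?_ le_rfl
    rw [inv_mul_le_iff₀ (by positivity)]
    exact (hN j).trans_eq (by ring)
  have big0 : Summable fun p : ℕ × Ix => ‖ψ p.1 p.2‖ :=
    big.of_nonneg_of_le (fun _ => norm_nonneg _) fun p =>
      le_mul_of_one_le_left (norm_nonneg _) (one_le_w 1 _)
  have col : ∀ n, Summable fun j => ‖ψ j n‖ := fun n => big0.prod_symm.prod_factor n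
  have hφ : X 1 fun n => ∑' j, ψ j n :=
    big.prod_symm.prod.of_nonneg_of_le (fun _ => by positivity) fun n => by
      simp only [Prod.swap_prod_mk]
      rw [tsum_mul_left]
      gcongr; exact norm_tsum_le_tsum_norm (col n)
  have sw : ∀ u : Ix → ℂ, (∀ (c : Ix → ℂ) n, ‖u n * c n‖ ≤ ‖c n‖) →
      HasSum (fun j => ev fun n => u n * ψ j n) (ev fun n => u n * ∑' j, ψ j n) := fun u hu => by
    have s : Summable fun p : ℕ × Ix => (u p.2 * ψ p.1 p.2) • mFourier p.2 :=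
      .of_norm (big0.of_nonneg_of_le (fun _ => norm_nonneg _) fun p => by
        rw [norm_smul, mFourier_norm, mul_one]; exact hu _ _)
    have e : (ev fun n => u n * ∑' j, ψ j n) = ∑' j, ∑' n, (u n * ψ j n) • mFourier n := by
      rw [← Summable.tsum_comm (f := fun j n => (u n * ψ j n) • mFourier n) s]
      refine tsum_congr fun n => ?_
      beta_reduce
      rw [← tsum_mul_left, ((col n).of_norm.mul_left (u n)).tsum_smul_const]
    rw [e]; exact s.prod.hasSum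
  refine ⟨_, hφ, ?_⟩
  have s1 := sw (fun _ => 1) (by simp)
  simp only [one_mul] at s1
  have s2 := (sw uu norm_uu_mul).mul_left a
  have e0' : ev (ψ 0) = h := ev_cf hh.sum
  refine s1.unique ((hasSum_nat_add_iff' 1).1 ?_)
  simp only [Finset.range_one, Finset.sum_singleton, e0', add_sub_cancel_left]
  have e : (fun j => ev (ψ (j + 1))) = fun j => a * ev fun n => uu n * ψ j n := funext fun j => by
    have := (hX (j + 1)).sum
    rw [hs] at this ⊢
    exact ev_cf this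
  rw [e]; exact s2

end Pool.Agent.Lib.THU.Tor
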