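import Pool.Agent.Lib.THU.Tor2

/-!
The Beltrami equation on the torus: a solution with nowhere vanishing derivative.
-/

set_option autoImplicit false

namespace Pool.Agent.Lib.THU.Tor

open UnitAddTorus Complex ComplexConjugate Filter Topology
open scoped ContDiff

lemma ext_cf {a b : C(T, ℂ)} (h : ∀ n, cf n a = cf n b) : a = b := by
  have e : (fun n => cf n (a - b)) = fun _ => 0 := funext fun n => by rw [map_sub, h, sub_self]
  have := ev_cf (a := a - b) (by simp only [congrFun e]; simp)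
  rw [e] at this
  exact sub_eq_zero.1 (this.symm.trans
    ((tsum_congr fun n => zero_smul ℂ (mFourier n)).trans tsum_zero))

lemma hd_lin (A B z : ℂ) : HasFDerivAt (fun w : ℂ => A * w + B * conj w) (lin A B) z := by
  have := (lin A B).hasFDerivAt (x := z)
  rwa [show ⇑(lin A B) = fun w => A * w + B * conj w from funext (lin_apply A B)] at this

lemma hd_e (n : Ix) : HD (mFourier n) (ze n • mFourier n) (et n • mFourier n) := fun z => by
  simp only [ContinuousMap.smul_apply, e_pr, smul_eq_mul]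
  refine ((hd_lin (ze n) (et n) z).cexp).congr_fderiv (ContinuousLinearMap.ext fun v => ?_)
  simp; ring

lemma hasSum_at {c : Ix → ℂ} (h : Summable fun n => ‖c n‖) (t : T) :
    HasSum (fun n => c n * mFourier n t) (ev c t) := by
  simpa using (ContinuousMap.evalCLM ℂ t).hasSum (hasSum_ev h)

lemma X.et {c : Ix → ℂ} (h : X 1 c) : Summable fun n => ‖et n * c n‖ := by
  simpa only [norm_mul, norm_et] using h.ze

lemma HD.ev {c : Ix → ℂ} (h : X 1 c) :
    HD (ev c) (ev fun n => ze n * c n) (ev fun n => et n * c n) := fun z => by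
  have d := hasFDerivAt_tsum (𝕜 := ℝ) (h.ze.add h.et) (x₀ := 0)
    (f := fun n w => c n * mFourier n (pr w))
    (f' := fun n w => lin (ze n * c n * mFourier n (pr w)) (et n * c n * mFourier n (pr w)))
    (fun n w => by
      refine ((hd_e n w).const_mul (c n)).congr_fderiv (ContinuousLinearMap.ext fun v => ?_)
      simp; ring)
    (fun n w => (norm_lin _ _).trans_eq (by simp only [norm_mul, norm_e, mul_one]))
    (hasSum_at h.sum _).summable z
  have s := ((hasSum_at h.ze (pr z)).smul_const (ContinuousLinearMap.id ℝ ℂ)).add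
    ((hasSum_at h.et (pr z)).smul_const (conjCLE : ℂ →L[ℝ] ℂ))
  simp only [(hasSum_at h.sum _).tsum_eq] at d
  exact d.congr_fderiv s.tsum_eq

lemma HD.unique {a a1 a2 b1 b2 : C(T, ℂ)} (h : HD a a1 a2) (h' : HD a b1 b2) :
    a1 = b1 ∧ a2 = b2 :=
  ⟨ext_cf fun n => by rw [(h.cf n).1, (h'.cf n).1], ext_cf fun n => by rw [(h.cf n).2, (h'.cf n).2]⟩

lemma HD.mul {a a1 a2 b b1 b2 : C(T, ℂ)} (h : HD a a1 a2) (h' : HD b b1 b2) :
    HD (a * b) (a1 * b + a * b1) (a2 * b + a * b2) := fun z => by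
  refine ((h z).mul (h' z)).congr_fderiv (ContinuousLinearMap.ext fun v => ?_)
  simp; ring

lemma HD.add {a a1 a2 b b1 b2 : C(T, ℂ)} (h : HD a a1 a2) (h' : HD b b1 b2) :
    HD (a + b) (a1 + b1) (a2 + b2) := fun z => by
  refine ((h z).add (h' z)).congr_fderiv (ContinuousLinearMap.ext fun v => ?_)
  simp; ring

lemma HD.smul {a a1 a2 : C(T, ℂ)} (h : HD a a1 a2) (c : ℂ) :
    HD (c • a) (c • a1) (c • a2) := fun z => by
  refine ((h z).const_mul c).congr_fderiv (ContinuousLinearMap.ext fun v => ?_)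
  simp; ring

lemma hd_one : HD 1 0 0 := fun z => by
  refine (hasFDerivAt_const (1 : ℂ) z).congr_fderiv (ContinuousLinearMap.ext fun v => ?_)
  simp

/-- the exponential of a function on the torus -/
noncomputable def ex (a : C(T, ℂ)) : C(T, ℂ) := ⟨fun t => exp (a t), by fun_prop⟩

lemma HD.ex {a a1 a2 : C(T, ℂ)} (h : HD a a1 a2) : HD (ex a) (ex a * a1) (ex a * a2) := fun z => by
  refine ((h z).cexp).congr_fderiv (ContinuousLinearMap.ext fun v => ?_)
  simp [Tor.ex]; ring

/-- smooth functions on the torus -/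
def Sm (a : C(T, ℂ)) : Prop := ContDiff ℝ ∞ fun z => a (pr z)

lemma Sm.hd {a : C(T, ℂ)} (h : Sm a) : ∃ a1 a2, Sm a1 ∧ Sm a2 ∧ HD a a1 a2 := by
  set D := fderiv ℝ fun z => a (pr z)
  have hD : ContDiff ℝ ∞ D := h.fderiv_right (m := ∞) le_rfl
  have per : ∀ z w, pr z = pr w → D z = D w := fun z w e => by
    have e0 : pr (w - z) = 0 := by
      have := pr_add (w - z) z
      rw [sub_add_cancel, ← e] at this
      exact left_eq_add.1 (this.trans (add_comm _ _))
    have := fderiv_comp_add_right (𝕜 := ℝ) (f := fun z => a (pr z)) (x := z) (w - z)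
    simpa only [pr_add, e0, add_zero, add_sub_cancel] using this
  have c : ∀ s : ℂ, ContDiff ℝ ∞ fun z => (D z 1 + s * D z I) / 2 := fun s =>
    ((hD.clm_apply contDiff_const).add (contDiff_const.mul (hD.clm_apply contDiff_const))).div_const _
  obtain ⟨a1, h1⟩ := exists_lift (c (-I)).continuous fun z w e => by rw [per z w e]
  obtain ⟨a2, h2⟩ := exists_lift (c I).continuous fun z w e => by rw [per z w e]
  refine ⟨a1, a2, by simpa only [Sm, h1] using c (-I), by simpa only [Sm, h2] using c I, fun z => ?_⟩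
  refine (h.differentiable (by simp) z).hasFDerivAt.congr_fderiv
    (ContinuousLinearMap.ext fun v => Eq.symm ?_)
  have : D z v = v.re * D z 1 + v.im * D z I := by
    conv_lhs => rw [show v = v.re • (1 : ℂ) + v.im • I by simp]
    rw [map_add, map_smul, map_smul]; simp
  rw [lin_apply, h1, h2]
  refine Eq.trans ?_ this.symm
  conv_lhs => rw [← re_add_im v]
  simp only [map_add, map_mul, conj_ofReal, conj_I]
  linear_combination (-v.im * D z I) * I_sq

lemma Sm.decay (j : ℕ) : ∀ {a : C(T, ℂ)}, Sm a → ∃ C, ∀ n, (1 + ‖ze n‖) ^ j * ‖cf n a‖ ≤ C := by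
  induction j with
  | zero => exact fun {a} _ => ⟨‖a‖, fun n => by simpa using norm_cf n a⟩
  | succ j ih =>
    intro a h
    obtain ⟨a1, a2, h1, -, hd⟩ := h.hd
    obtain ⟨C, hC⟩ := ih h
    obtain ⟨C1, hC1⟩ := ih h1
    refine ⟨C + C1, fun n => ?_⟩
    have := hC1 n
    rw [(hd.cf n).1, norm_mul] at this
    linarith [hC n, (by ring : (1 + ‖ze n‖) ^ (j + 1) * ‖cf n a‖ =
      (1 + ‖ze n‖) ^ j * ‖cf n a‖ + (1 + ‖ze n‖) ^ j * (‖ze n‖ * ‖cf n a‖))]

lemma Sm.X {a : C(T, ℂ)} (h : Sm a) : X 3 fun n => cf n a := by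
  obtain ⟨C, hC⟩ := h.decay 6
  refine (sum3.mul_left C).of_nonneg_of_le (fun _ => by positivity) fun n => ?_
  rw [← div_eq_mul_inv, le_div_iff₀ (by positivity)]
  exact le_of_eq_of_le (by ring) (hC n)

lemma prim {φ : Ix → ℂ} (h : X 1 φ) :
    ∃ p, HD p (ev fun n => uu n * φ n) (ev φ - φ 0 • 1) := by
  have x : X 1 fun n => φ n / et n := h.mono fun n => by
    by_cases e : n = 0
    · simp [e]
    · rw [norm_div, norm_et]; exact div_le_self (norm_nonneg _) (one_le_ze e)
  have e1 : (fun n => uu n * φ n) = fun n => ze n * (φ n / et n) := by funext n; rw [uu]; ring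
  have e2 : ev φ - φ 0 • 1 = ev fun n => et n * (φ n / et n) := ext_cf fun n => by
    rw [cf_ev x.et, map_sub, map_smul, cf_ev h.sum, cf_one]
    by_cases e : n = 0
    · simp [e]
    · simp [e, mul_div_cancel₀ _ (et_ne e)]
  rw [e1, e2]
  exact ⟨_, HD.ev x⟩

theorem core {μ : C(T, ℂ)} (hμ : Sm μ) {k : ℝ} (hk : k < 1) (hb : ‖μ‖ ≤ k) :
    ∃ (c : ℂ) (p g : C(T, ℂ)), ‖c‖ ≤ k ∧ (∀ t, g t ≠ 0) ∧ HD p (g - 1) (μ * g - c • 1) := by
  have k0 : 0 ≤ k := (norm_nonneg _).trans hb
  have k2 : k ^ 2 < 1 := by nlinarith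
  obtain ⟨μ1, μ2, s1, -, dμ⟩ := hμ.hd
  obtain ⟨φ, xφ, hφ⟩ := solve hμ.X hμ.X hk hb
  obtain ⟨ψ, xψ, hψ⟩ := solve hμ.X s1.X hk hb
  obtain ⟨p, hp⟩ := prim xφ
  obtain ⟨r, hr⟩ := prim xψ
  have xu := xφ.mono (norm_uu_mul φ)
  have dg := hd_one.add (HD.ev xu)
  set g := 1 + ev fun n => uu n * φ n with hg
  have e1 : ev φ = μ * g := by rw [hφ, hg, mul_add, mul_one]
  have cg : ∀ n, cf n g = (if n = 0 then 1 else 0) + uu n * φ n := fun n => by
    rw [hg, map_add, cf_one, cf_ev xu.sum]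
  have hc : ‖φ 0‖ ≤ k := by
    have h1 := sq_mul_le μ g hb
    rw [← e1, (tsum_sq xφ.sum).2, (tsum_sq xφ.sum).1.tsum_eq_add_tsum_ite 0,
      (sq_summable g).tsum_eq_add_tsum_ite 0,
      tsum_congr (f := fun n => if n = 0 then 0 else ‖cf n g‖ ^ 2)
        (g := fun n => if n = 0 then 0 else ‖φ n‖ ^ 2) fun n => by
        by_cases e : n = 0
        · simp [e]
        · simp [e, cg, norm_uu e], cg] at h1
    have S0 : 0 ≤ ∑' n, if n = 0 then 0 else ‖φ n‖ ^ 2 :=
      tsum_nonneg fun n => by split_ifs <;> positivity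
    simp only [if_true, uu, ze_zero, zero_div, zero_mul, add_zero, norm_one, one_pow] at h1
    exact (pow_le_pow_iff_left₀ (norm_nonneg _) k0 two_ne_zero).1 (by nlinarith)
  refine ⟨φ 0, p, g, hc, fun t ht => ?_, by rw [← e1, hg, add_sub_cancel_left]; exact hp⟩
  have e2 := ((HD.ev xφ).unique (e1 ▸ dμ.mul dg)).1
  have e3 : (ev fun n => et n * (uu n * φ n)) = ev fun n => ze n * φ n := by
    congr 1; funext n
    by_cases e : n = 0
    · simp [e]
    · rw [uu]; field_simp [et_ne e]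
  rw [e3, e2] at dg
  obtain ⟨α, hα⟩ : ∃ α : ℂ, conj α = ψ 0 - α * φ 0 := by
    have h1 : (1 - φ 0 * conj (φ 0)) ≠ 0 := by
      rw [mul_conj, ← ofReal_one, ← ofReal_sub, ofReal_ne_zero, normSq_eq_norm_sq]
      nlinarith [norm_nonneg (φ 0)]
    refine ⟨(conj (ψ 0) - conj (φ 0) * ψ 0) / (1 - φ 0 * conj (φ 0)), ?_⟩
    simp only [map_div₀, map_sub, map_mul, map_one, conj_conj, mul_comm (conj (φ 0)) (φ 0)]
    field_simp; ring
  have dq := dg.mul ((hr.smul (-1)).add (hp.smul α)).ex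
  set E := ex ((-1 : ℂ) • r + α • p)
  set q1 := (0 + ev fun n => ze n * (uu n * φ n)) * E +
    g * (E * ((-1 : ℂ) • (ev fun n => uu n * ψ n) + α • ev fun n => uu n * φ n))
  have e4 : ∀ n, cf n (μ * (q1 + α • (g * E))) = (et n - conj α) * cf n (g * E) := fun n => by
    rw [sub_mul, ← (dq.cf n).2, ← smul_eq_mul (conj α), ← map_smul, ← map_sub]
    congr 1; ext x
    rw [hα, hψ, e1]
    simp [q1, hg]; ring
  have e5 : ∀ n, cf n (q1 + α • (g * E)) = (ze n + α) * cf n (g * E) := fun n => by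
    rw [map_add, map_smul, (dq.cf n).1, smul_eq_mul, add_mul (ze n)]
  have h1 := sq_mul_le μ (q1 + α • (g * E)) hb
  rw [tsum_congr (g := fun n => ‖cf n (q1 + α • (g * E))‖ ^ 2) fun n => by
    rw [e4, e5, norm_mul, norm_mul, et_eq, ← neg_add', norm_neg, ← map_add, norm_conj]] at h1
  have S0 : 0 ≤ ∑' n, ‖cf n (q1 + α • (g * E))‖ ^ 2 := tsum_nonneg fun _ => by positivity
  have e6 : ∀ n, (ze n + α) * cf n (g * E) = 0 := fun n => by
    have := (sq_summable (q1 + α • (g * E))).le_tsum n fun _ _ => by positivity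
    rw [← e5, ← norm_eq_zero, ← sq_eq_zero_iff]
    exact le_antisymm (by nlinarith) (by positivity)
  obtain ⟨m, hm⟩ : ∃ m, ∀ n, n ≠ m → cf n (g * E) = 0 := by
    by_cases h : ∃ m, ze m + α = 0
    · obtain ⟨m, hm⟩ := h
      exact ⟨m, fun n hn => (mul_eq_zero.1 (e6 n)).resolve_left fun e =>
        hn (ze_inj (add_right_cancel (e.trans hm.symm)))⟩
    · exact ⟨0, fun n _ => (mul_eq_zero.1 (e6 n)).resolve_left fun e => h ⟨n, e⟩⟩
  have e7 : g * E = cf m (g * E) • mFourier m := ext_cf fun n => by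
    rw [map_smul, cf_e]
    by_cases e : n = m
    · simp [e]
    · simp [e, hm n e]
  have e8 : cf m (g * E) = 0 := by
    have := congrArg (fun a : C(T, ℂ) => ‖a t‖) e7
    exact norm_eq_zero.1 (by simpa [ht, norm_e] using this.symm)
  have e9 : g = 0 := by
    ext x
    rw [e8] at e7
    simpa [E, ex] using congrArg (fun a : C(T, ℂ) => a x) e7
  simpa [e9, uu] using cg 0

end Pool.Agent.Lib.THU.Tor
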